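import Pool.Agent.Helper22_DEN2.Br

/-!
# JGR: the elements of `J`
-/

open scoped BigOperators

namespace Pool.Agent.DEN.H2x2

open Pool.Agent.DEN Pool.Agent.DEN.Br

section
variable {r : ℕ} {C : Matrix (Fin r) (Fin r) ℤ} {K : Type} [Field K] {S : Subring (FF K)}

theorem crd_mem {v : LieV C (FF K)} (h : Cd S v) (x : Fin r → ℤ) : crd v x ∈ S := by
  unfold crd
  split_ifs with h1
  · exact h.2 _
  · exact S.zero_mem

theorem pr_mem {v : LieV C (FF K)} (h : Cd S v) (x : Fin r → ℤ) : pr v x ∈ S :=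
  S.sum_mem fun i _ => S.sum_mem fun _ _ =>
    S.mul_mem (S.mul_mem (h.1 i) (intCast_mem S _)) (intCast_mem S _)

theorem cd_add {v w : LieV C (FF K)} (hv : Cd S v) (hw : Cd S w) : Cd S (v + w) :=
  ⟨fun i => S.add_mem (hv.1 i) (hw.1 i), fun γ => S.add_mem (hv.2 γ) (hw.2 γ)⟩

theorem cd_smul {c : FF K} (hc : c ∈ S) {w : LieV C (FF K)} (hw : Cd S w) : Cd S (c • w) :=
  ⟨fun i => S.mul_mem hc (hw.1 i), fun γ => S.mul_mem hc (hw.2 γ)⟩

theorem cd_ev (β : Rt C) : Cd S (ev β : LieV C (FF K)) := by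
  refine ⟨fun i => ?_, fun γ => ?_⟩
  · show (0 : FF K) ∈ S
    exact S.zero_mem
  · by_cases h : γ = β
    · subst h; rw [SetLike.mem_coe, ev_snd_self]; exact S.one_mem
    · rw [SetLike.mem_coe, ev_snd_ne h]; exact S.zero_mem

theorem finsum_mem_sub {ι : Type} (f : ι → FF K) (h : ∀ i, f i ∈ S) : ∑ᶠ i, f i ∈ S :=
  finsum_induction (fun a => a ∈ S) S.zero_mem (fun _ _ ha hb => S.add_mem ha hb) h

theorem cd_br {v w : LieV C (FF K)} (hv : Cd S v) (hw : Cd S w) : Cd S (br v w) := by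
  refine ⟨fun i => ?_, fun γ => ?_⟩
  · rw [SetLike.mem_coe, br_fst]
    refine S.neg_mem (finsum_mem_sub _ fun μ => ?_)
    exact S.mul_mem (S.mul_mem (hv.2 _) (hw.2 _)) (intCast_mem S _)
  · rw [SetLike.mem_coe, br_snd]
    refine S.sub_mem (S.add_mem (finsum_mem_sub _ fun μ => ?_) ?_) ?_
    · split_ifs
      · exact S.mul_mem (S.mul_mem (intCast_mem S _) (hv.2 _)) (crd_mem hw _)
      · exact S.zero_mem
    · exact S.mul_mem (pr_mem hv _) (hw.2 _)
    · exact S.mul_mem (hv.2 _) (pr_mem hw _)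

theorem cd_rootMap {β : Rt C} {a : FF K} (ha : a ∈ S) {v : LieV C (FF K)} (hv : Cd S v) :
    Cd S (rootMap β a v) := by
  rw [rootMap_eq]
  exact cd_add (cd_add hv (cd_smul ha (cd_br (cd_ev β) hv)))
    (cd_smul (S.mul_mem (S.pow_mem ha 2) (hv.2 _)) (cd_ev β))

variable (C S) in
/-- The stabilizer of the order over `S`. -/
def stabS : Subgroup (grp C K) where
  carrier := {g | ∀ v : LieV C (FF K), Cd S (g.1 v) ↔ Cd S v}
  mul_mem' := by
    intro a b ha hb v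
    exact (ha (b.1 v)).trans (hb v)
  one_mem' := by
    intro v
    exact Iff.rfl
  inv_mem' := by
    intro a ha v
    have h1 := ha ((a⁻¹).1 v)
    have h2 : a.1 ((a⁻¹).1 v) = v := by
      have h : (a * a⁻¹).1 v = v := by simp
      exact h
    rw [h2] at h1
    exact h1.symm

theorem GS_le (hC : SimplyLaced C) : GS C S ≤ stabS C S := by
  unfold GS
  rw [Subgroup.closure_le]
  rintro g ⟨β, a, ha, h⟩ v
  rw [h]
  constructor
  · intro h1
    have h2 := cd_rootMap (β := β) (S.neg_mem ha) h1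
    rwa [rootMap_rootMap hC, neg_add_cancel, rootMap_zero] at h2
  · exact cd_rootMap ha

theorem GS_cd (hC : SimplyLaced C) {g : grp C K} (hg : g ∈ GS C S) {w : LieV C (FF K)}
    (hw : Cd S w) : Cd S (g.1 w) := (GS_le hC hg w).2 hw

end

section
variable {r : ℕ} {C : Matrix (Fin r) (Fin r) ℤ} {K : Type} [Field K] {P : Polynomial K}

theorem polyL_mem_loc (P Q : Polynomial K) : polyL K Q ∈ loc K P :=
  Subring.subset_closure (Or.inl ⟨Q, rfl⟩)

theorem cd_lp_iff {k : ℕ} {e : LieV C (FF K)} :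
    Cd (lp K P k) e ↔ ∃ e' : LieV C (FF K), Cd (loc K P : Set (FF K)) e' ∧
      e = polyL K P ^ k • e' := by
  constructor
  · rintro ⟨h1, h2⟩
    choose f hf hf' using h1
    choose g hg hg' using h2
    exact ⟨(f, g), ⟨hf, hg⟩, Prod.ext (funext hf') (funext hg')⟩
  · rintro ⟨e', he, rfl⟩
    exact ⟨fun i => ⟨e'.1 i, he.1 i, rfl⟩, fun γ => ⟨e'.2 γ, he.2 γ, rfl⟩⟩

end

theorem jgr (heq : EqvStmt) : JgrStmt := by
  intro r C hC K _ P _
  set S := loc K P with hS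
  set q := polyL K P with hq
  have hqS : q ∈ S := polyL_mem_loc P P
  refine ⟨fun g hg w hw => GS_cd hC hg hw, ?_, ?_, ?_, ?_⟩
  · refine ⟨one_mem _, 0, ⟨fun i => S.zero_mem, fun γ => S.zero_mem⟩, fun w hw => ?_⟩
    rw [cd_lp_iff]
    refine ⟨0, ⟨fun i => S.zero_mem, fun γ => S.zero_mem⟩, ?_⟩
    rw [br_zero_left hC, smul_zero, smul_zero, sub_zero]
    have : (1 : grp C K).1 w = w := rfl
    rw [this, sub_self]
  · rintro g h ⟨hg, z, hz, hgz⟩ ⟨hh, z', hz', hhz⟩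
    refine ⟨mul_mem hg hh, z + z', cd_add hz hz', fun w hw => ?_⟩
    obtain ⟨e2, he2, h2⟩ := cd_lp_iff.1 (hhz w hw)
    have hhw : Cd (S : Set (FF K)) (h.1 w) := GS_cd hC hh hw
    obtain ⟨e1, he1, h1⟩ := cd_lp_iff.1 (hgz _ hhw)
    rw [cd_lp_iff]
    have h2' : h.1 w = w + q • br z' w + q ^ 2 • e2 := by
      rw [← h2]; abel
    have h1' : (g * h).1 w = h.1 w + q • br z (h.1 w) + q ^ 2 • e1 := by
      rw [← h1]
      show g.1 (h.1 w) = _
      abel
    refine ⟨br z (br z' w) + q • br z e2 + e2 + e1, cd_add (cd_add (cd_add (cd_br hz (cd_br hz' hw))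
      (cd_smul hqS (cd_br hz he2))) he2) he1, ?_⟩
    rw [h1']
    have h3 : br z (h.1 w) = br z w + q • br z (br z' w) + q ^ 2 • br z e2 := by
      rw [h2', br_add_right hC, br_add_right hC, br_smul_right _ hC, br_smul_right _ hC]
    rw [h3, h2', br_add_left hC]
    simp only [smul_add, smul_smul, pow_two, mul_assoc]
    abel
  · rintro x hx g ⟨hg, z, hz, hgz⟩
    refine ⟨mul_mem (mul_mem hx hg) (inv_mem hx), x.1 z, GS_cd hC hx hz, fun w hw => ?_⟩
    have hw' : Cd (S : Set (FF K)) ((x⁻¹).1 w) := GS_cd hC (inv_mem hx) hw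
    obtain ⟨e, he, h⟩ := cd_lp_iff.1 (hgz _ hw')
    rw [cd_lp_iff]
    refine ⟨x.1 e, GS_cd hC hx he, ?_⟩
    have h2 : x.1 ((x⁻¹).1 w) = w := by
      have h : (x * x⁻¹).1 w = w := by simp
      exact h
    have h3 : g.1 ((x⁻¹).1 w) = (x⁻¹).1 w + q • br z ((x⁻¹).1 w) + q ^ 2 • e := by
      rw [← h]; abel
    have h4 : (x * g * x⁻¹).1 w = x.1 (g.1 ((x⁻¹).1 w)) := rfl
    rw [h4, h3, map_add, map_add, map_smul, map_smul, heq r C hC K x, h2]
    abel
  · rintro β b ⟨b', hb', rfl⟩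
    have hb : polyL K P ^ 1 * b' ∈ S := S.mul_mem (S.pow_mem hqS 1) hb'
    refine ⟨Subgroup.subset_closure ⟨β, _, hb, fun v => rfl⟩, b' • ev β, cd_smul hb' (cd_ev β),
      fun w hw => ?_⟩
    rw [cd_lp_iff]
    refine ⟨(b' ^ 2 * w.2 β.neg) • ev β, cd_smul (S.mul_mem (S.pow_mem hb' 2) (hw.2 _)) (cd_ev β),
      ?_⟩
    rw [xg_apply, rootMap_eq, br_smul_left _ hC]
    simp only [smul_smul]
    have e1 : (polyL K P ^ 1 * b') ^ 2 * w.2 β.neg = q ^ 2 * (b' ^ 2 * w.2 β.neg) := by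
      rw [hq]; ring
    rw [e1, pow_one]
    abel

end Pool.Agent.DEN.H2x2
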