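import Pool.Agent.Helper22_DEN2.Stmt

/-!
# UPSS: the unipotent group relative to a simple root, entries in a subring
-/

namespace Pool.Agent.DEN.H2x2

open Pool.Agent.DEN

section
variable {r : ℕ} {C : Matrix (Fin r) (Fin r) ℤ} {K : Type} [Field K]

theorem mem_UnS (hC : SimplyLaced C) {S : Subring (FF K)} {i : Fin r} {β : Rt C}
    (h1 : β.Pos) (h2 : β.1 ≠ al i) {a : FF K} (ha : a ∈ S) : xg hC β a ∈ UnS C S i :=
  Subgroup.subset_closure ⟨β, a, h1, h2, ha, fun _ => rfl⟩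

theorem conj_w (hC : SimplyLaced C) (S : Subring (FF K)) (i : Fin r)
    {β : Rt C} (h1 : β.Pos) (h2 : β.1 ≠ al i) {b : FF K} (hb : b ∈ S) :
    wg hC (hC.sr i) (1 : FF K) * xg hC β b * (wg hC (hC.sr i) (1 : FF K))⁻¹ ∈ UnS C S i := by
  obtain ⟨-, -, r1, r2, r3⟩ := H22.relC r C hC K (hC.sr i) 1 one_ne_zero b
  have hne : β ≠ hC.sr i := fun h => h2 (by rw [h, hC.sr_val])
  have key : ∀ γ : Rt C, γ.1 = β.1 - ip C β.1 (al i) • al i → γ.Pos ∧ γ.1 ≠ al i := by
    intro γ hγ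
    have := (H22.hRD r C hC).2.1 i β γ h1 hne hγ
    exact ⟨this.1, fun h => this.2 (Subtype.ext (by rw [h, hC.sr_val]))⟩
  rcases H67.ip_cases hC i β with h | h | h | h | h
  · exact absurd h (H67.ne_two hC i h2)
  · have hr : ip C (β.1 - al i) (β.1 - al i) = 2 := by
      have := hC.ip_sub_self (β := β) (γ := hC.sr i) (by rw [hC.sr_val, hC.ip_comm]; exact h)
      exact this
    rw [r1 β ⟨_, hr⟩ h rfl]
    obtain ⟨k1, k2⟩ := key ⟨_, hr⟩ (by
      show β.1 - al i = _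
      rw [hC.ip_comm, h, one_smul])
    refine mem_UnS hC k1 k2 ?_
    rw [inv_one, one_mul]
    exact S.mul_mem (intCast_mem S _) hb
  · rw [r3 β h]
    exact mem_UnS hC h1 h2 hb
  · have hr : ip C (β.1 + al i) (β.1 + al i) = 2 := by
      have := hC.ip_add_self (β := β) (γ := hC.sr i) (by rw [hC.sr_val, hC.ip_comm]; exact h)
      exact this
    rw [r2 β ⟨_, hr⟩ h rfl]
    obtain ⟨k1, k2⟩ := key ⟨_, hr⟩ (by
      show β.1 + al i = _
      rw [hC.ip_comm, h, neg_smul, one_smul, sub_neg_eq_add])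
    refine mem_UnS hC k1 k2 ?_
    rw [one_mul]
    exact S.mul_mem (intCast_mem S _) hb
  · exact absurd h (H67.ne_neg hC i h1)

theorem conj_x (hC : SimplyLaced C) (S : Subring (FF K))
    (i : Fin r) {β : Rt C} (h1 : β.Pos) (h2 : β.1 ≠ al i) {a b : FF K} (ha : a ∈ S) (hb : b ∈ S) :
    xg hC (hC.sr i) a * xg hC β b * (xg hC (hC.sr i) a)⁻¹ ∈ UnS C S i := by
  have hne : β ≠ hC.sr i := fun h => h2 (by rw [h, hC.sr_val])
  by_cases h0 : 0 ≤ ip C (al i) β.1
  · have e : xg hC (hC.sr i) a * xg hC β b = xg hC β b * xg hC (hC.sr i) a :=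
      Subtype.ext (H22.relA r C hC (FF K) (hC.sr i) β a b h0)
    rw [e, mul_assoc, mul_inv_cancel, mul_one]
    exact mem_UnS hC h1 h2 hb
  · have h : ip C (al i) β.1 = -1 := by
      rcases H67.ip_cases hC i β with h | h | h | h | h
      · omega
      · omega
      · omega
      · exact h
      · exact absurd h (H67.ne_neg hC i h1)
    have hr : ip C (al i + β.1) (al i + β.1) = 2 :=
      hC.ip_add_self (β := hC.sr i) (γ := β) h
    have e : xg hC (hC.sr i) a * xg hC β b = xg hC β b *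
        xg hC ⟨_, hr⟩ (((eps C (al i) β.1 : ℤ) : FF K) * a * b) * xg hC (hC.sr i) a :=
      Subtype.ext (H22.relB r C hC (FF K) (hC.sr i) β ⟨_, hr⟩ a b h rfl)
    rw [e, mul_assoc, mul_inv_cancel, mul_one]
    have := (H22.hRD r C hC).2.1 i β ⟨_, hr⟩ h1 hne (by
      show al i + β.1 = _
      rw [hC.ip_comm, h, neg_smul, one_smul, sub_neg_eq_add, add_comm])
    exact mul_mem (mem_UnS hC h1 h2 hb)
      (mem_UnS hC this.1 (fun h => this.2 (Subtype.ext (by rw [h, hC.sr_val])))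
        (S.mul_mem (S.mul_mem (intCast_mem S _) ha) hb))

end

theorem upss : UpsSStmt := by
  intro r C hC K _ S i
  have p3 : ∀ u ∈ UnS C S i, ∀ a ∈ S,
      xg hC (hC.sr i) a * u * (xg hC (hC.sr i) a)⁻¹ ∈ UnS C S i := by
    intro u hu a ha
    refine H67.conj_closure _ _ _ ?_ u hu
    rintro s ⟨β, b, h1, h2, hb, h3⟩
    rw [eq_xg hC β b s h3]
    exact conj_x hC S i h1 h2 ha hb
  refine ⟨?_, ?_, p3⟩
  · intro u hu
    induction hu using Subgroup.closure_induction with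
    | mem x hx =>
      obtain ⟨β, a, h1, ha, h2⟩ := hx
      rw [eq_xg hC β a x h2]
      by_cases h : β.1 = al i
      · refine ⟨a, ha, 1, one_mem _, ?_⟩
        rw [one_mul, show β = hC.sr i from Subtype.ext h]
      · exact ⟨0, S.zero_mem, _, mem_UnS hC h1 h ha, by rw [xg_zero, mul_one]⟩
    | one => exact ⟨0, S.zero_mem, 1, one_mem _, by rw [xg_zero, mul_one]⟩
    | mul x y _ _ hx hy =>
      obtain ⟨b, hb, u, hu, rfl⟩ := hx
      obtain ⟨c, hc, v, hv, rfl⟩ := hy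
      refine ⟨b + c, S.add_mem hb hc, _, mul_mem hu (p3 v hv b hb), ?_⟩
      rw [xg_add]
      group
    | inv x _ hx =>
      obtain ⟨b, hb, u, hu, rfl⟩ := hx
      refine ⟨-b, S.neg_mem hb, _, p3 _ (inv_mem hu) (-b) (S.neg_mem hb), ?_⟩
      rw [← xg_inv]
      group
  · intro u hu
    refine H67.conj_closure _ _ _ ?_ u hu
    rintro s ⟨β, b, h1, h2, hb, h3⟩
    rw [eq_xg hC β b s h3]
    exact conj_w hC S i h1 h2 hb

end Pool.Agent.DEN.H2x2
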